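import Pool.Agent.H80.JD.Basic

/-!
# Module EX of the board jd_modules
-/

set_option autoImplicit false

namespace Pool.Agent.H74.JD
open Finset Filter Topology Pool.Agent.H80.JD

/-- the number of flipped coordinates in `A0 L` changes by at most one in a step -/
lemma filter_step {n : ℕ} (A : Finset (Fin n)) (D D' : Fin n → Bool) (h : hammingDist D D' ≤ 1) :
    (A.filter (fun c => D' c = true)).card ≤ (A.filter (fun c => D c = true)).card + 1 := by
  have h1 : A.filter (fun c => D' c = true) ⊆
      A.filter (fun c => D c = true) ∪ univ.filter (fun c => D c ≠ D' c) := by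
    intro c hc
    rw [mem_filter] at hc
    by_cases h2 : D c = true
    · exact mem_union_left _ (mem_filter.2 ⟨hc.1, h2⟩)
    · refine mem_union_right _ (mem_filter.2 ⟨mem_univ _, ?_⟩)
      rw [hc.2]; exact h2
  calc (A.filter (fun c => D' c = true)).card
      ≤ (A.filter (fun c => D c = true) ∪ univ.filter (fun c => D c ≠ D' c)).card :=
        card_le_card h1
    _ ≤ (A.filter (fun c => D c = true)).card + (univ.filter (fun c => D c ≠ D' c)).card :=
        card_union_le _ _
    _ ≤ (A.filter (fun c => D c = true)).card + 1 := Nat.add_le_add_left h _

lemma A0_eq {n : ℕ} (L : List (Fin n → Bool)) :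
    A0 L = univ.filter (fun c => lab L c = fun _ => false) := by
  ext c
  simp only [A0, mem_filter, mem_univ, true_and]
  constructor
  · intro h
    funext i
    exact h _ (List.get_mem L i)
  · intro h D hD
    obtain ⟨i, hi⟩ := List.mem_iff_get.1 hD
    rw [← hi]
    exact congrFun h i

lemma cls_t0 {n : ℕ} (L : List (Fin n → Bool)) (D : Fin n → Bool) (b : Bool) :
    cls (lab L) D (fun _ => false) b = ((A0 L).filter (fun c => D c = b)).card := by
  rw [A0_eq, Finset.filter_filter]
  rfl

lemma a_add {n : ℕ} (L : List (Fin n → Bool)) (D : Fin n → Bool) :
    ((A0 L).filter (fun c => D c = true)).card + ((A0 L).filter (fun c => D c = false)).card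
      = (A0 L).card := by
  have h := Finset.card_filter_add_card_filter_not (s := A0 L) (fun c => D c = true)
  rw [← h]
  congr 2
  ext c
  simp

theorem ex (hWL : T_WL) : T_EX := by
  intro n S x y M J L hS hd hL hn hM hA
  by_contra hcon
  have hind : wt (lab L) (xr x y) < M ∧ ((A0 L).filter (fun c => xr x y c = true)).card < M := by
    refine same_ind (S := S) (x := x) (fun z => wt (lab L) (xr x z) < M ∧
      ((A0 L).filter (fun c => xr x z c = true)).card < M) ?_ ?_ hS
    · constructor
      · have : wt (lab L) (xr x x) = 0 := by
          rw [xr_self]
          unfold wt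
          refine Finset.sum_eq_zero (fun t _ => ?_)
          have : cls (lab L) (zero n) t true = 0 := by
            unfold cls
            rw [Finset.card_eq_zero, Finset.filter_eq_empty_iff]
            rintro c - ⟨-, h⟩
            simp [zero_apply] at h
          rw [this, Nat.zero_min]
        omega
      · have : ((A0 L).filter (fun c => xr x x c = true)).card = 0 := by
          rw [xr_self, Finset.card_eq_zero, Finset.filter_eq_empty_iff]
          intro c _ h
          simp [zero_apply] at h
        omega
    · rintro u z hu hadj ⟨h1, h2⟩
      have hdist : hammingDist (xr x u) (xr x z) ≤ 1 := by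
        rw [hammingDist_xr]; exact hadj.2.2.le
      have hw := hWL n (Fin L.length → Bool) (lab L) (xr x u) (xr x z) hdist
      have ha := filter_step (A0 L) (xr x u) (xr x z) hdist
      have hz : Same S x z := hu.step hadj
      have hwlt : wt (lab L) (xr x z) < M := by
        rcases Nat.lt_or_ge (wt (lab L) (xr x z)) M with h | h
        · exact h
        · exact absurd ⟨z, hz, by omega, by omega⟩ hcon
      refine ⟨hwlt, ?_⟩
      by_contra h3
      have h4 : M ≤ cls (lab L) (xr x z) (fun _ => false) true := by
        rw [cls_t0]; omega
      have h5 : M ≤ cls (lab L) (xr x z) (fun _ => false) false := by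
        rw [cls_t0]
        have h6 := a_add L (xr x z)
        have h7 : L.length * M + M ≤ J * M := by
          have := Nat.mul_le_mul_right M (Nat.succ_le_of_lt hL)
          rw [Nat.succ_mul] at this
          exact this
        have h8 : (J + 1) * M = J * M + M := by ring
        omega
      have h6 : M ≤ wt (lab L) (xr x z) := by
        unfold wt
        refine le_trans (le_min h4 h5) ?_
        exact Finset.single_le_sum (f := fun t => min (cls (lab L) (xr x z) t true)
          (cls (lab L) (xr x z) t false)) (fun _ _ => Nat.zero_le _) (mem_univ _)
      omega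
  have h1 : hammingDist x y ≤ ((A0 L).filter (fun c => xr x y c = true)).card +
      (n - (A0 L).card) := by
    rw [hammingDist_eq_card_xr]
    have h2 : univ.filter (fun c => xr x y c = true) ⊆
        (A0 L).filter (fun c => xr x y c = true) ∪ (A0 L)ᶜ := by
      intro c hc
      rw [mem_filter] at hc
      by_cases h : c ∈ A0 L
      · exact mem_union_left _ (mem_filter.2 ⟨h, hc.2⟩)
      · exact mem_union_right _ (mem_compl.2 h)
    refine (card_le_card h2).trans ((card_union_le _ _).trans ?_)
    rw [card_compl, Fintype.card_fin]
  have h7 : L.length * M + M ≤ J * M := by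
    have := Nat.mul_le_mul_right M (Nat.succ_le_of_lt hL)
    rw [Nat.succ_mul] at this
    exact this
  have h8 := hind.2
  omega

end Pool.Agent.H74.JD
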